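import Mathlib
import Pool.Agent.H3.Gale

namespace Pool.Agent.Results.MP_d46fce_co.LowerBound

open Finset

/-- The `n`-subsets of a set with `2n+k` elements. -/
abbrev Vert (n k : ℕ) := {A : Finset (Fin (2 * n + k)) // A.card = n}

/-- `G_(n,k,l)`: two distinct `n`-subsets are adjacent when they share at most `l` elements. -/
def G (n k l : ℕ) : SimpleGraph (Vert n k) :=
  SimpleGraph.fromRel fun A B => (A.1 ∩ B.1).card ≤ l

/-- `h_m(n;k,l)`: the largest chromatic number of an induced subgraph on exactly `m` vertices. -/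
noncomputable def hm (m n k l : ℕ) : ℕ∞ :=
  ⨆ (V : Finset (Vert n k)) (_ : V.card = m),
    ((G n k l).induce (V : Set (Vert n k))).chromaticNumber

section proof

lemma card_vert (n k : ℕ) : Fintype.card (Vert n k) = (2 * n + k).choose n := by
  rw [Fintype.card_subtype]
  have : (univ.filter fun A : Finset (Fin (2 * n + k)) => A.card = n) = powersetCard n univ := by
    ext A; simp [mem_powersetCard]
  rw [this, card_powersetCard, card_univ, Fintype.card_fin]

lemma exists_map (n k l a j i q c : ℕ) (hl : l < n) (h1 : n ≤ a * q + c)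
    (h2 : (2 * a + j) * q + c ≤ 2 * n + k) (h3 : i * q + c ≤ l) :
    ∃ f : Vert a j → Vert n k, ∀ A B, (G a j i).Adj A B → (G n k l).Adj (f A) (f B) := by
  obtain ⟨e⟩ : Nonempty ((Fin (2 * a + j) × Fin q) ⊕ Fin c ↪ Fin (2 * n + k)) :=
    Function.Embedding.nonempty_of_card_le (by simpa using h2)
  let big : Finset (Fin (2 * a + j)) → Finset (Fin (2 * n + k)) :=
    fun A => ((A ×ˢ (univ : Finset (Fin q))).disjSum (univ : Finset (Fin c))).map e
  have hcard : ∀ A, (big A).card = A.card * q + c := by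
    intro A; simp [big]
  have hint : ∀ A B, big A ∩ big B ⊆ big (A ∩ B) := by
    intro A B x hx
    rw [mem_inter] at hx
    obtain ⟨hA, hB⟩ := hx
    simp only [big, mem_map] at hA hB ⊢
    obtain ⟨y, hy, rfl⟩ := hA
    obtain ⟨z, hz, hzy⟩ := hB
    have := e.injective hzy
    subst this
    refine ⟨z, ?_, rfl⟩
    rcases z with z | z
    · simp only [inl_mem_disjSum, mem_product, mem_univ, and_true, mem_inter] at hy hz ⊢
      exact ⟨hy, hz⟩
    · simp
  have hex : ∀ A : Vert a j, ∃ B : Vert n k, B.1 ⊆ big A.1 := by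
    intro A
    obtain ⟨B, hB, hc⟩ := exists_subset_card_eq (s := big A.1) (n := n)
      (by rw [hcard, A.2]; exact h1)
    exact ⟨⟨B, hc⟩, hB⟩
  choose f hf using hex
  refine ⟨f, fun A B hAB => ?_⟩
  rw [G, SimpleGraph.fromRel_adj] at hAB ⊢
  have h4 : (A.1 ∩ B.1).card ≤ i := by
    rcases hAB.2 with h | h
    · exact h
    · rwa [inter_comm]
  have h5 : ((f A).1 ∩ (f B).1).card ≤ l := by
    have := card_le_card ((inter_subset_inter (hf A) (hf B)).trans (hint _ _))
    rw [hcard] at this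
    have := Nat.mul_le_mul_right q h4
    omega
  refine ⟨fun h => ?_, Or.inl h5⟩
  rw [h, inter_self, (f B).2] at h5
  omega

end proof

theorem result (m n k l a j q : ℕ) (hl : l < n) (h1 : n ≤ a * q + l)
    (h2 : (2 * a + j) * q + l ≤ 2 * n + k)
    (hm1 : min ((2 * a + j).choose a) (∑ i ∈ range (j + 2), (2 * a + j).choose i) ≤ m)
    (hm2 : m ≤ (2 * n + k).choose n) :
    ((j + 2 : ℕ) : ℕ∞) ≤ hm m n k l := by
  classical
  have ha : 1 ≤ a := by
    rcases Nat.eq_zero_or_pos a with h | h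
    · subst h; omega
    · exact h
  obtain ⟨f, hf⟩ := exists_map n k l a j 0 q l hl h1 h2 (by omega)
  obtain ⟨F, hF1, hF2, hF3⟩ := Pool.Agent.H3.Gale.small_family a j
  have hF4 : F.card ≤ (2 * a + j).choose a := by
    have := card_le_card (show F ⊆ powersetCard a univ from
      fun A hA => mem_powersetCard.2 ⟨subset_univ _, hF1 A hA⟩)
    rwa [card_powersetCard, card_univ, Fintype.card_fin] at this
  let f' : F → Vert n k := fun A => f ⟨A.1, hF1 A.1 A.2⟩
  obtain ⟨V, hV1, -, hV⟩ := exists_subsuperset_card_eq (subset_univ (univ.image f')) (n := m)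
    (card_image_le.trans (by
      rw [card_univ, Fintype.card_coe]; exact (le_min hF4 hF2).trans hm1))
    (by rw [card_univ, card_vert]; exact hm2)
  refine le_trans ?_ (le_iSup₂_of_le V hV le_rfl)
  by_contra hlt
  have h3 : ((G n k l).induce (V : Set (Vert n k))).chromaticNumber ≤ ((j + 1 : ℕ) : ℕ∞) := by
    rw [not_le] at hlt
    have : ((j + 2 : ℕ) : ℕ∞) = ((j + 1 : ℕ) : ℕ∞) + 1 := by push_cast; ring
    rw [this] at hlt
    exact Order.le_of_lt_add_one hlt
  obtain ⟨C⟩ := SimpleGraph.chromaticNumber_le_iff_colorable.1 h3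
  have hmem : ∀ A : F, f' A ∈ (V : Set (Vert n k)) :=
    fun A => hV1 (mem_image_of_mem f' (mem_univ A))
  obtain ⟨A, hA, B, hB, hd, hc⟩ := hF3
    (fun A => if h : A ∈ F then (C ⟨f' ⟨A, h⟩, hmem _⟩).val else 0)
    (fun A h => by simp only [h, dif_pos]; exact (C _).2)
  simp only [hA, hB, dif_pos] at hc
  have hi : A ∩ B = ∅ := disjoint_iff_inter_eq_empty.1 hd
  refine C.valid (v := ⟨f' ⟨A, hA⟩, hmem _⟩) (w := ⟨f' ⟨B, hB⟩, hmem _⟩) ?_ (Fin.ext hc)
  refine hf _ _ ?_
  rw [G, SimpleGraph.fromRel_adj]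
  refine ⟨fun h => ?_, Or.inl (by simp [hi])⟩
  have h4 : A = B := congrArg Subtype.val h
  have h5 := hF1 B hB
  rw [h4, inter_self] at hi
  rw [hi, card_empty] at h5
  omega

end Pool.Agent.Results.MP_d46fce_co.LowerBound
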