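import Mathlib

namespace Pool.Agent.Results.MP_d46fce_co.UpperBound

open Finset

/-- The `n`-subsets of a set with `2n+k` elements. -/
abbrev Vert (n k : ℕ) := {A : Finset (Fin (2 * n + k)) // A.card = n}

/-- `G_(n,k,l)`: two distinct `n`-subsets are adjacent when they share at most `l` elements. -/
def G (n k l : ℕ) : SimpleGraph (Vert n k) :=
  SimpleGraph.fromRel fun A B => (A.1 ∩ B.1).card ≤ l

/-- `h_m(n;k,l)`: the largest chromatic number of an induced subgraph on exactly `m` vertices. -/
noncomputable def hm (m n k l : ℕ) : ℕ∞ :=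
  ⨆ (V : Finset (Vert n k)) (_ : V.card = m),
    ((G n k l).induce (V : Set (Vert n k))).chromaticNumber

section proof

lemma count_one {n k : ℕ} (l t : ℕ) (A : Vert n k) :
    ((powersetCard t (powersetCard (l + 1) (univ : Finset (Fin (2 * n + k))))).filter
      (fun X => ∀ T ∈ X, ¬ T ⊆ A.1)).card =
      ((2 * n + k).choose (l + 1) - n.choose (l + 1)).choose t := by
  have h1 : (powersetCard t (powersetCard (l + 1) (univ : Finset (Fin (2 * n + k))))).filter
      (fun X => ∀ T ∈ X, ¬ T ⊆ A.1) =
      powersetCard t (powersetCard (l + 1) univ \ powersetCard (l + 1) A.1) := by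
    ext X
    simp only [mem_filter, mem_powersetCard, subset_iff (s₁ := X), mem_sdiff, subset_univ,
      true_and, not_and]
    constructor
    · rintro ⟨⟨h, hc⟩, h2⟩
      exact ⟨fun T hT => ⟨h hT, fun hs => absurd hs (h2 T hT)⟩, hc⟩
    · rintro ⟨h, hc⟩
      exact ⟨⟨fun T hT => (h hT).1, hc⟩, fun T hT hs => (h hT).2 hs (h hT).1⟩
  rw [h1, card_powersetCard, card_sdiff_of_subset (powersetCard_mono (subset_univ _)),
    card_powersetCard, card_powersetCard, card_univ, Fintype.card_fin, A.2]

lemma exists_good {n k : ℕ} (l t s : ℕ) (V : Finset (Vert n k))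
    (h : V.card * ((2 * n + k).choose (l + 1) - n.choose (l + 1)).choose t <
      (s + 1) * ((2 * n + k).choose (l + 1)).choose t) :
    ∃ X ∈ powersetCard t (powersetCard (l + 1) (univ : Finset (Fin (2 * n + k)))),
      (V.filter fun A => ∀ T ∈ X, ¬ T ⊆ A.1).card ≤ s := by
  by_contra hc
  push Not at hc
  have h1 : ∑ X ∈ powersetCard t (powersetCard (l + 1) (univ : Finset (Fin (2 * n + k)))),
      (V.filter fun A => ∀ T ∈ X, ¬ T ⊆ A.1).card =
      V.card * ((2 * n + k).choose (l + 1) - n.choose (l + 1)).choose t := by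
    simp only [card_filter]
    rw [sum_comm]
    refine sum_const_nat fun A _ => ?_
    rw [← card_filter, count_one]
  have h2 := card_nsmul_le_sum
    (powersetCard t (powersetCard (l + 1) (univ : Finset (Fin (2 * n + k)))))
    (fun X => (V.filter fun A => ∀ T ∈ X, ¬ T ⊆ A.1).card) (s + 1) (fun X hX => hc X hX)
  rw [h1, card_powersetCard, card_powersetCard, card_univ, Fintype.card_fin, smul_eq_mul,
    mul_comm] at h2
  omega

end proof

theorem result (m n k l t s : ℕ)
    (h : m * ((2 * n + k).choose (l + 1) - n.choose (l + 1)).choose t <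
      (s + 1) * ((2 * n + k).choose (l + 1)).choose t) :
    hm m n k l ≤ ((t + s : ℕ) : ℕ∞) := by
  classical
  refine iSup_le fun V => iSup_le fun hV => ?_
  obtain ⟨X, hX, hb⟩ := exists_good l t s V (by rw [hV]; exact h)
  rw [mem_powersetCard] at hX
  set B := V.filter fun A => ∀ T ∈ X, ¬ T ⊆ A.1 with hB
  have key : ∀ A : (V : Set (Vert n k)), ∃ c : X ⊕ B,
      (∀ T : X, c = Sum.inl T → T.1 ⊆ A.1.1) ∧ (∀ b : B, c = Sum.inr b → b.1 = A.1) := by
    intro A
    by_cases hA : ∀ T ∈ X, ¬ T ⊆ A.1.1
    · refine ⟨Sum.inr ⟨A.1, mem_filter.2 ⟨A.2, hA⟩⟩, fun T hT => ?_, fun b hb => ?_⟩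
      · cases hT
      · cases hb; rfl
    · push Not at hA
      obtain ⟨T, hT, hs⟩ := hA
      refine ⟨Sum.inl ⟨T, hT⟩, fun T' h' => ?_, fun b hb => ?_⟩
      · cases h'; exact hs
      · cases hb
  choose c hc using key
  have col : ((G n k l).induce (V : Set (Vert n k))).Coloring (X ⊕ B) := by
    refine SimpleGraph.Coloring.mk c fun {A A'} hadj heq => ?_
    have hadj' : (G n k l).Adj A.1 A'.1 := hadj
    rw [G, SimpleGraph.fromRel_adj] at hadj'
    obtain ⟨hne, hr⟩ := hadj'
    have hr' : (A.1.1 ∩ A'.1.1).card ≤ l := by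
      rcases hr with hr | hr
      · exact hr
      · rwa [inter_comm]
    rcases hcA : c A with T | b
    · have h1 := (hc A).1 T hcA
      have h2 := (hc A').1 T (heq ▸ hcA)
      have h3 := card_le_card (subset_inter h1 h2)
      have h4 := (mem_powersetCard.1 (hX.1 T.2)).2
      omega
    · exact hne (((hc A).2 b hcA).symm.trans ((hc A').2 b (heq ▸ hcA)))
  have h5 := col.colorable
  rw [Fintype.card_sum, Fintype.card_coe, Fintype.card_coe, hX.2] at h5
  exact (h5.mono (by omega)).chromaticNumber_le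

end Pool.Agent.Results.MP_d46fce_co.UpperBound
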